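import Pool.Agent.H789.HW.Pure

/-!
# Multiplicative relations between the boundary values of L-functions of elliptic curves

`E_0, E_1, E_2, ...` are elliptic curves over number fields `K_0, K_1, K_2, ...` (which may be
different), and `α_0, α_1, ...` are real numbers.  The Euler products `L(E_j/K_j, s)` converge for
`Re s > 3/2`, and a continuation across any point of the edge `Re s = 3/2` is not known in general.

For integers `m_j`, almost all `0`, consider the product of the `L(E_j/K_j, s + i α_j) ^ m_j`, for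
example a quotient `L(E/K', s) / L(E/K, s)`.  For real `τ` let `C(τ)` be the set of all exponent vectors
`m = (m_j)` for which this product continues to a holomorphic function without zeros in a
neighbourhood of `3/2 + iτ`.  It is a subgroup, with torsion-free quotient: if a power of a product
continues then so does the product.  The theorem says that for almost every `τ` there is no
multiplicative relation, and no algebraic number, among the boundary values `l_j(τ)` of the
`L(E_j/K_j, s + i α_j)` except for `m` in `C(τ)`: for all `m` outside `C(τ)` the product of the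
`l_j(τ) ^ m_j` is transcendental, and even transcendental over the field generated by the values at
`3/2 + iτ` of any countable set of (locally) analytic functions given in advance.
-/

set_option autoImplicit false

namespace Pool.Agent.Results.MP_bf61d2_nt.MultiplicativeRelations

open NumberField IsDedekindDomain MeasureTheory Filter Topology

/-- `W v` is, for every finite place `v`, an integral model of `E` with discriminant minimal at
`v`. -/
def MinimalModels {K : Type} [Field K] [NumberField K] (E : WeierstrassCurve K)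
    (W : HeightOneSpectrum (𝓞 K) → WeierstrassCurve (𝓞 K)) : Prop :=
  ∀ v : HeightOneSpectrum (𝓞 K),
    (∃ C : WeierstrassCurve.VariableChange K, C • (W v).map (algebraMap (𝓞 K) K) = E) ∧
    ∀ W' : WeierstrassCurve (𝓞 K),
      (∃ C : WeierstrassCurve.VariableChange K, C • W'.map (algebraMap (𝓞 K) K) = E) →
      ∀ n : ℕ, (W v).Δ ∈ v.asIdeal ^ n → W'.Δ ∈ v.asIdeal ^ n

open Classical in
/-- The Euler factor at `v`, `(1 - a_v Nv^{-s} + Nv^{1-2s})⁻¹` if the reduction at `v` is good and
`(1 - a_v Nv^{-s})⁻¹` if it is bad, where `a_v` is `Nv` minus the number of affine points of the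
reduction of `W v` (for bad reduction this is `1`, `-1`, `0` in the split multiplicative, non-split
multiplicative, additive case). -/
noncomputable def localFactor {K : Type} [Field K] [NumberField K]
    (W : HeightOneSpectrum (𝓞 K) → WeierstrassCurve (𝓞 K)) (v : HeightOneSpectrum (𝓞 K))
    (s : ℂ) : ℂ :=
  (1 - ((Ideal.absNorm v.asIdeal : ℂ)
        - (Nat.card {xy : (𝓞 K ⧸ v.asIdeal) × (𝓞 K ⧸ v.asIdeal) //
            ((W v).map (Ideal.Quotient.mk v.asIdeal)).toAffine.Equation xy.1 xy.2} : ℂ))
        * (Ideal.absNorm v.asIdeal : ℂ) ^ (-s)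
    + (if (W v).Δ ∈ v.asIdeal then 0 else (Ideal.absNorm v.asIdeal : ℂ))
        * (Ideal.absNorm v.asIdeal : ℂ) ^ (-2 * s))⁻¹

/-- The `L`-function, as the Euler product over all finite places. -/
noncomputable def LSeries {K : Type} [Field K] [NumberField K]
    (W : HeightOneSpectrum (𝓞 K) → WeierstrassCurve (𝓞 K)) (s : ℂ) : ℂ :=
  ∏' v : HeightOneSpectrum (𝓞 K), localFactor W v s

/-- The point `3/2 + iτ` of the edge. -/
noncomputable def edge (τ : ℝ) : ℂ := 3 / 2 + τ * Complex.I

/-- The angle `|s - (3/2 + iτ)| ≤ C (Re s - 3/2)` in the half-plane `Re s > 3/2`. -/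
def angle (τ C : ℝ) : Set ℂ :=
  {s : ℂ | 3 / 2 < s.re ∧ ‖s - edge τ‖ ≤ C * (s.re - 3 / 2)}

/-- The function `f`, on the half-plane `Re s > 3/2`, continues to a neighbourhood of `3/2 + iτ` as a
holomorphic function without zeros: near this point it agrees, for `Re s > 3/2`, with a function
which is analytic and not zero there. -/
def Continues (f : ℂ → ℂ) (τ : ℝ) : Prop :=
  ∃ φ : ℂ → ℂ, AnalyticAt ℂ φ (edge τ) ∧ φ (edge τ) ≠ 0 ∧
    ∀ᶠ s in 𝓝 (edge τ), 3 / 2 < s.re → f s = φ s

/-- The product of the functions `L(E_j/K_j, s + i α_j) ^ m_j`. -/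
noncomputable def product (K : ℕ → Type) [∀ j, Field (K j)] [∀ j, NumberField (K j)]
    (W : ∀ j, HeightOneSpectrum (𝓞 (K j)) → WeierstrassCurve (𝓞 (K j))) (α : ℕ → ℝ)
    (m : ℕ →₀ ℤ) (s : ℂ) : ℂ :=
  m.prod fun j k => LSeries (W j) (s + α j * Complex.I) ^ k

/-- The values at `s` of the functions in `A` which are analytic at `s`. -/
def values (A : Set (ℂ → ℂ)) (s : ℂ) : Set ℂ :=
  {z : ℂ | ∃ g ∈ A, AnalyticAt ℂ g s ∧ g s = z}

section
open Pool.Agent.H789.HW
open Pool.Agent.TH339.MP (PP FF bl ap)
open Pool.Agent.TH345.ET (ep bv hE hE_analytic)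

theorem LSeries_eq {K : Type} [Field K] [NumberField K]
    (W : HeightOneSpectrum (𝓞 K) → WeierstrassCurve (𝓞 K)) :
    ∃ b : PP → ℂ, (∀ x, ‖b x‖ ≤ ((Module.finrank ℚ K : ℝ) * 2) / (x.2 + 1 : ℕ)) ∧
      ∀ s : ℂ, 3 / 2 < s.re →
        LSeries W s = hE W (s - 1 / 2) * Complex.exp (FF b (s - 1 / 2)) := by
  have hlf : ∀ v s, localFactor W v s = Pool.Agent.TH339.MP.elf W v s := by
    intro v s
    have h1 : (Nat.card {xy : (𝓞 K ⧸ v.asIdeal) × (𝓞 K ⧸ v.asIdeal) //
            ((W v).map (Ideal.Quotient.mk v.asIdeal)).toAffine.Equation xy.1 xy.2}) =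
        Pool.Agent.TH339.MP.affc ((W v).map (Ideal.Quotient.mk v.asIdeal)) := by
      unfold Pool.Agent.TH339.MP.affc
      refine Nat.card_congr (Equiv.subtypeEquivRight fun q => ?_)
      exact WeierstrassCurve.Affine.equation_iff ..
    unfold localFactor Pool.Agent.TH339.MP.elf Pool.Agent.TH339.MP.lfac Pool.Agent.TH339.MP.av
      Pool.Agent.TH339.MP.nm
    rw [h1]
    push_cast
    rfl
  obtain ⟨b, hb, hprod⟩ := Pool.Agent.TH345.ET.elf_hasProd' W
  refine ⟨b, hb, fun s hs => ?_⟩
  have h1 : 1 < (s - 1 / 2).re := by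
    have : (s - 1 / 2).re = s.re - 1 / 2 := by simp
    rw [this]
    linarith
  have h2 := hprod _ h1
  rw [sub_add_cancel] at h2
  rw [← h2.tprod_eq]
  exact tprod_congr fun v => hlf v s

theorem edge_sub (τ : ℝ) : edge τ - 1 / 2 = ep τ := by
  unfold edge Pool.Agent.TH345.ET.ep
  ring

theorem ep_add (τ : ℝ) : ep τ + 1 / 2 = edge τ := by
  rw [← edge_sub, sub_add_cancel]

theorem tendsto_sub (τ : ℝ) : Tendsto (fun s : ℂ => s - 1 / 2) (𝓝 (edge τ)) (𝓝 (ep τ)) := by
  have h8 : Tendsto (fun s : ℂ => s - 1 / 2) (𝓝 (edge τ)) (𝓝 (edge τ - 1 / 2)) :=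
    (continuous_id.sub continuous_const).tendsto _
  rwa [edge_sub] at h8

theorem re_sub {s : ℂ} (hs : 3 / 2 < s.re) : 1 < (s - 1 / 2).re := by
  have : (s - 1 / 2).re = s.re - 1 / 2 := by simp
  rw [this]
  linarith

end

end Pool.Agent.Results.MP_bf61d2_nt.MultiplicativeRelations

open Pool.Agent.Results.MP_bf61d2_nt.MultiplicativeRelations in
open NumberField IsDedekindDomain MeasureTheory Filter Topology in
/-- Let `E j`, `j = 0, 1, 2, ...`, be elliptic curves over number fields `K j`, and `α j` real numbers.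
There are functions `l j` on the real line without zeros, and for every real `τ` a subgroup `C τ` of the
group of all integer vectors with finitely many entries `≠ 0`, such that

* `L(E_j/K_j, s + i α_j)` tends to `l_j(τ)` as `s` tends to `3/2 + iτ` in any angle in the half-plane
  `Re s > 3/2`, for all real `τ` outside a set (depending on `j`) of Hausdorff dimension `0`;
* `m` is in `C τ` if and only if the product of the functions `L(E_j/K_j, s + i α_j) ^ m_j` continues
  to a holomorphic function without zeros in a neighbourhood of `3/2 + iτ`;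
* the quotient by `C τ` is torsion-free;
* for every countable set `A` of functions, for almost every real `τ`, for all `m` outside `C τ` the
  product of the numbers `l_j(τ) ^ m_j` is transcendental over the field generated over `ℚ` by the
  values `g(3/2 + iτ)` of all functions `g` in `A` which are analytic at `3/2 + iτ`. -/
theorem Pool.Agent.Results.MP_bf61d2_nt.MultiplicativeRelations.result
    (K : ℕ → Type) [∀ j, Field (K j)] [∀ j, NumberField (K j)]
    (E : ∀ j, WeierstrassCurve (K j)) [∀ j, (E j).IsElliptic]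
    (W : ∀ j, HeightOneSpectrum (𝓞 (K j)) → WeierstrassCurve (𝓞 (K j)))
    (_ : ∀ j, MinimalModels (E j) (W j)) (α : ℕ → ℝ) :
    ∃ (l : ℕ → ℝ → ℂ) (C : ℝ → AddSubgroup (ℕ →₀ ℤ)),
      (∀ j τ, l j τ ≠ 0) ∧
      (∀ j, ∃ N : Set ℝ, dimH N = 0 ∧ ∀ τ : ℝ, τ ∉ N → ∀ c : ℝ,
        Tendsto (fun s => LSeries (W j) (s + α j * Complex.I)) (𝓝[angle τ c] (edge τ))
          (𝓝 (l j τ))) ∧
      (∀ τ m, m ∈ C τ ↔ Continues (product K W α m) τ) ∧
      (∀ (τ : ℝ) (m : ℕ →₀ ℤ) (n : ℕ), n ≠ 0 → n • m ∈ C τ → m ∈ C τ) ∧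
      ∀ A : Set (ℂ → ℂ), A.Countable → ∀ᵐ τ : ℝ, ∀ m : ℕ →₀ ℤ, m ∉ C τ →
        Transcendental (IntermediateField.adjoin ℚ (values A (edge τ)))
          (m.prod fun j k => l j τ ^ k) := by
  have hdata := fun j => LSeries_eq (W j)
  choose b₀ hb₀ hL₀ using hdata
  -- the shifted data
  set b : ℕ → Pool.Agent.TH339.MP.PP → ℂ := fun j => Pool.Agent.H789.HW.sh (b₀ j) (α j) with hbdef
  set h : ℕ → ℂ → ℂ := fun j s => Pool.Agent.TH345.ET.hE (W j) (s + α j * Complex.I) with hhdef
  have hb : ∀ j x, ‖b j x‖ ≤ ((Module.finrank ℚ (K j) : ℝ) * 2) / (x.2 + 1 : ℕ) := by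
    intro j x
    rw [hbdef]
    simp only [Pool.Agent.H789.HW.norm_sh]
    exact hb₀ j x
  have hre : ∀ (s : ℂ) (a : ℝ), (s + a * Complex.I).re = s.re := by
    intro s a
    simp
  have hne' : ∀ j (s : ℂ), 1 ≤ s.re → h j s ≠ 0 := by
    intro j s hs
    exact Pool.Agent.H789.HW.hE_ne (W j) (by rw [hre]; exact hs)
  have hne : ∀ j τ, h j (Pool.Agent.TH345.ET.ep τ) ≠ 0 := fun j τ =>
    hne' j _ (Pool.Agent.H789.HW.ep_re τ).ge
  have hh : ∀ j τ, AnalyticAt ℂ (h j) (Pool.Agent.TH345.ET.ep τ) := by
    intro j τ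
    have h1 : Pool.Agent.TH345.ET.ep τ + α j * Complex.I = Pool.Agent.TH345.ET.ep (τ + α j) := by
      unfold Pool.Agent.TH345.ET.ep
      push_cast
      ring
    refine AnalyticAt.fun_comp (g := Pool.Agent.TH345.ET.hE (W j))
      (f := fun s : ℂ => s + α j * Complex.I) ?_ (analyticAt_id.add analyticAt_const)
    rw [h1]
    exact Pool.Agent.TH345.ET.hE_analytic (W j) (τ + α j)
  have hL : ∀ j (s : ℂ), 3 / 2 < s.re → LSeries (W j) (s + α j * Complex.I) =
      h j (s - 1 / 2) * Complex.exp (Pool.Agent.TH339.MP.FF (b j) (s - 1 / 2)) := by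
    intro j s hs
    rw [hL₀ j _ (by rw [hre]; exact hs)]
    simp only [hbdef, hhdef, Pool.Agent.H789.HW.FF_sh]
    rw [show s + α j * Complex.I - 1 / 2 = s - 1 / 2 + α j * Complex.I by ring]
  have hL0 : ∀ j (s : ℂ), 3 / 2 < s.re → LSeries (W j) (s + α j * Complex.I) ≠ 0 := by
    intro j s hs
    rw [hL j s hs]
    exact mul_ne_zero (hne' j _ (re_sub hs).le) (Complex.exp_ne_zero _)
  have hmul : ∀ (m m' : ℕ →₀ ℤ) (s : ℂ), 3 / 2 < s.re →
      product K W α (m + m') s = product K W α m s * product K W α m' s := by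
    intro m m' s hs
    unfold product
    exact Finsupp.prod_add_index' (fun j => zpow_zero _)
      (fun j k k' => zpow_add₀ (hL0 j s hs) k k')
  have hpow : ∀ (m : ℕ →₀ ℤ) (n : ℕ) (s : ℂ), 3 / 2 < s.re →
      product K W α (n • m) s = product K W α m s ^ n := by
    intro m n s hs
    induction n with
    | zero => simp [product]
    | succ n ih => rw [succ_nsmul, hmul _ _ s hs, ih, pow_succ]
  have hcontL : ∀ j, ContinuousOn (fun s => LSeries (W j) (s + α j * Complex.I))
      {s : ℂ | (3 / 2 : ℝ) < s.re} := by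
    intro j
    have h1 := (Pool.Agent.H789.HW.continuousOn_exp (W j) (hb₀ j)).comp
      (f := fun s : ℂ => s + α j * Complex.I - 1 / 2) (s := {s : ℂ | (3 / 2 : ℝ) < s.re})
      (by fun_prop) (fun s hs => by
        have hs' : (3 / 2 : ℝ) < s.re := hs
        exact re_sub (by rw [hre]; exact hs'))
    refine h1.congr fun s hs => ?_
    have hs' : (3 / 2 : ℝ) < s.re := hs
    exact hL₀ j _ (by rw [hre]; exact hs')
  have hcont : ∀ m : ℕ →₀ ℤ, ContinuousOn (product K W α m) {s : ℂ | (3 / 2 : ℝ) < s.re} := by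
    intro m
    unfold product Finsupp.prod
    refine continuousOn_finsetProd _ fun j _ => ?_
    exact (hcontL j).zpow₀ _ fun s hs => Or.inl (hL0 j s hs)
  let C : ℝ → AddSubgroup (ℕ →₀ ℤ) := fun τ =>
    { carrier := {m | Continues (product K W α m) τ}
      zero_mem' := ⟨fun _ => 1, analyticAt_const, one_ne_zero,
        Eventually.of_forall fun s _ => by simp [product]⟩
      add_mem' := by
        rintro m m' ⟨φ, h1, h2, h3⟩ ⟨φ', h1', h2', h3'⟩
        refine ⟨fun s => φ s * φ' s, h1.mul h1', mul_ne_zero h2 h2', ?_⟩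
        filter_upwards [h3, h3'] with s hs hs' hre3
        rw [← hs hre3, ← hs' hre3]
        exact hmul m m' s hre3
      neg_mem' := by
        rintro m ⟨φ, h1, h2, h3⟩
        refine ⟨fun s => (φ s)⁻¹, h1.fun_inv h2, inv_ne_zero h2, ?_⟩
        filter_upwards [h3] with s hs hre3
        rw [← hs hre3]
        unfold product
        rw [Finsupp.prod_neg_index (fun j => zpow_zero _)]
        unfold Finsupp.prod
        rw [← Finset.prod_inv_distrib]
        exact Finset.prod_congr rfl fun j _ => zpow_neg _ _ }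
  refine ⟨fun j => Pool.Agent.TH345.ET.bv (b j) (h j), C, ?_, ?_, fun τ m => Iff.rfl, ?_, ?_⟩
  · intro j τ
    exact mul_ne_zero (hne j τ) (Complex.exp_ne_zero _)
  · intro j
    refine ⟨_, (Pool.Agent.TH339.MP.boundary (hb j)).2.1, fun τ hτ c => ?_⟩
    have h5 := (Complex.continuous_exp.tendsto _).comp
      (Pool.Agent.TH339.MP.bl_angle (hb j) hτ c)
    have h6 : Tendsto (fun s : ℂ => s - edge τ) (𝓝[angle τ c] (edge τ))
        (𝓝[{z : ℂ | 0 < z.re ∧ ‖z‖ ≤ c * z.re}] 0) := by
      rw [tendsto_nhdsWithin_iff]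
      constructor
      · have h7 : Tendsto (fun s : ℂ => s - edge τ) (𝓝 (edge τ)) (𝓝 (edge τ - edge τ)) :=
          (continuous_id.sub continuous_const).tendsto _
        rw [sub_self] at h7
        exact h7.mono_left nhdsWithin_le_nhds
      · filter_upwards [self_mem_nhdsWithin] with s hs
        have hre : (s - edge τ).re = s.re - 3 / 2 := by
          unfold edge
          simp
        refine ⟨?_, ?_⟩
        · rw [hre]
          linarith [hs.1]
        · rw [hre]
          exact hs.2
    have h7 : Tendsto (fun s : ℂ => h j (s - 1 / 2)) (𝓝[angle τ c] (edge τ))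
        (𝓝 (h j (Pool.Agent.TH345.ET.ep τ))) :=
      (((hh j τ).continuousAt.tendsto).comp (tendsto_sub τ)).mono_left nhdsWithin_le_nhds
    refine (h7.mul (h5.comp h6)).congr' ?_
    filter_upwards [self_mem_nhdsWithin] with s hs
    rw [hL j s hs.1]
    simp only [Function.comp_apply]
    congr 3
    unfold edge
    ring
  · rintro τ m n hn ⟨φ, h1, h2, h3⟩
    refine Pool.Agent.H789.HW.pure_root (σ := 3 / 2) (by unfold edge; simp) (hcont m)
      (Nat.pos_of_ne_zero hn) h1 h2 ?_
    filter_upwards [h3] with s hs hre3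
    rw [← hs hre3, hpow m n s hre3]
  · intro A hA
    have hshift : ∀ (g : ℂ → ℂ) (τ : ℝ), AnalyticAt ℂ g (edge τ) →
        AnalyticAt ℂ (fun s => g (s + 1 / 2)) (Pool.Agent.TH345.ET.ep τ) := by
      intro g τ hg
      refine AnalyticAt.fun_comp (g := g) (f := fun s : ℂ => s + 1 / 2) ?_
        (analyticAt_id.add analyticAt_const)
      rw [ep_add]
      exact hg
    have h1 := Pool.Agent.H789.HW.ae_mult hb hh hne
      (A := (fun g : ℂ → ℂ => fun s : ℂ => g (s + 1 / 2)) '' A) (hA.image _)
    filter_upwards [h1] with τ hτ m hm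
    rcases hτ m with hτ | hτ
    · exfalso
      apply hm
      obtain ⟨φ, hφ, hval, hev⟩ := hτ
      refine ⟨fun s => φ (s - 1 / 2), ?_, ?_, ?_⟩
      · refine AnalyticAt.fun_comp (g := φ) (f := fun s : ℂ => s - 1 / 2) ?_
          (analyticAt_id.sub analyticAt_const)
        rw [edge_sub]
        exact hφ
      · simp only
        rw [edge_sub, hval]
        unfold Finsupp.prod
        refine Finset.prod_ne_zero_iff.2 fun j _ => zpow_ne_zero _ ?_
        exact mul_ne_zero (hne j τ) (Complex.exp_ne_zero _)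
      · filter_upwards [(tendsto_sub τ).eventually hev] with s hs hs1
        rw [← hs (re_sub hs1)]
        unfold product Finsupp.prod
        refine Finset.prod_congr rfl fun j _ => ?_
        beta_reduce
        rw [hL j s hs1]
    · intro halg
      apply hτ
      have hle : IntermediateField.adjoin ℚ (values A (edge τ)) ≤
          IntermediateField.adjoin ℚ (Pool.Agent.TH345.ET.vals
            ((fun g : ℂ → ℂ => fun s : ℂ => g (s + 1 / 2)) '' A)
            (Pool.Agent.TH345.ET.ep τ)) := by
        refine IntermediateField.adjoin.mono _ _ _ ?_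
        rintro z ⟨g, hg, hga, rfl⟩
        refine ⟨fun s => g (s + 1 / 2), ⟨g, hg, rfl⟩, hshift g τ hga, ?_⟩
        simp only
        rw [ep_add]
      obtain ⟨P, hP, hPx⟩ := halg
      refine ⟨P.map (IntermediateField.inclusion hle).toRingHom, ?_, ?_⟩
      · rw [Polynomial.map_ne_zero_iff (IntermediateField.inclusion hle).toRingHom.injective]
        exact hP
      · rw [Polynomial.aeval_def, Polynomial.eval₂_map]
        rw [Polynomial.aeval_def] at hPx
        exact hPx
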